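import Pool.Agent.Work.MP_d70a14_gt.A.Normal

/-! # Determinism of the rays (M)

All statements by induction on `Flow`.  `V` is open, so `V` and `frontier V ⊇ W` are disjoint.
* `det`: two `free`: the same `t`, clear.  `free` with time `t` against `refl` with first hit `t₁ < t`: `x + t₁ v ∈ V` by the
  freeness and `∈ W`: contradiction.  `refl` against `refl`: if the first hitting times were different, the later one would
  have the point of the earlier one in `V` and in `W`; so they agree, the normals agree (`InnerNormal.unique`), the remaining times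
  agree: induction hypothesis.  (Generalize the total time with an equation `T = t + t'` before the induction.)
* `cut`: induction on the flow.  `free`: the state at `r` is `x + r v ∈ V`, the rest is `free` with time `t - r`.
  `refl` with first hit `t`, and `r < t`: the state is `x + r v ∈ V`, the rest is `refl` with first time `t - r`; `r = t`: the
  state is `x + t v ∈ W`; `r > t`: induction hypothesis with `r - t`, then `Flow.refl`.
* `exit_unique`: if `t < t'` then `cut` of the second flow at `t` gives by `det` that `y ∈ V` or `y ∈ W`.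
* `trans`: induction on the first flow; `free` (ending at `y = x + t v ∈ V`) followed by the second flow: if the second one is
  `free` for the time `t'`, then the segment is free for `t + t'` (the point `y` at time `t` is in `V`); if the second one starts with
  a flight for the time `t₁` then the first flight is `t + t₁`.
* `finite_bad`: `free`: `T = ∅`; `refl` with first hit `t`: `T = insert t (image (t + ·) T')`. -/

open MeasureTheory Set Metric Filter Topology
open scoped RealInnerProductSpace ContDiff ENNReal

noncomputable section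

namespace Pool.Agent.Work.MP_d70a14_gt

variable {V W : Set E} {k k' : ℕ} {x v y w y' w' z u : E} {t t' r : ℝ}

theorem Flow.pos (h : Flow V W k x v t y w) : 0 < t := by
  induction h with
  | free ht _ => exact ht
  | refl ht _ _ _ _ _ ih => exact add_pos ht ih

theorem Flow.norm (h : Flow V W k x v t y w) : ‖w‖ = ‖v‖ := by
  induction h with
  | free _ _ => rfl
  | refl _ _ _ hn _ _ ih => rw [ih, norm_mirror hn.1]

theorem Flow.mem_closure (h : Flow V W k x v t y w) : y ∈ closure V := by
  induction h with
  | @free x v t ht hf =>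
    have hc : Continuous fun s : ℝ => x + s • v := by fun_prop
    have h1 : Tendsto (fun s : ℝ => x + s • v) (𝓝[<] t) (𝓝 (x + t • v)) :=
      (hc.tendsto t).mono_left nhdsWithin_le_nhds
    refine mem_closure_of_tendsto h1 ?_
    filter_upwards [Ioo_mem_nhdsLT ht] with s hs
    exact hf s hs.1 hs.2
  | refl _ _ _ _ _ _ ih => exact ih

private theorem disj_VW (hV : IsOpen V) (hW : W ⊆ frontier V) (hz : z ∈ V) : z ∉ W := by
  intro h
  have h1 := hW h
  rw [hV.frontier_eq] at h1
  exact h1.2 hz

private theorem det_aux (hV : IsOpen V) (hW : W ⊆ frontier V) (h : Flow V W k x v t y w) :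
    ∀ {k' t' y' w'}, Flow V W k' x v t' y' w' → t' = t → k = k' ∧ y = y' ∧ w = w' := by
  induction h with
  | @free x v t ht hf =>
    intro k' t' y' w' h' htt
    cases h' with
    | free ht' hf' => subst htt; exact ⟨rfl, rfl, rfl⟩
    | @refl k _ _ t₁ n t₂ _ _ ht' hf' hW' hn hv hF =>
      exfalso
      have h2 := hF.pos
      exact disj_VW hV hW (hf t₁ ht' (by linarith)) hW'
  | @refl k x v t₁ n t₂ y w ht hf hWp hn hv hF ih =>
    intro k' t' y' w' h' htt
    cases h' with
    | free ht' hf' =>
      exfalso
      have h2 := hF.pos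
      exact disj_VW hV hW (hf' t₁ ht (by linarith)) hWp
    | @refl k'' _ _ t₁' n' t₂' _ _ ht' hf' hW' hn' hv' hF' =>
      have h3 : t₁' = t₁ := by
        rcases lt_trichotomy t₁' t₁ with h | h | h
        · exact absurd hW' (disj_VW hV hW (hf t₁' ht' h))
        · exact h
        · exact absurd hWp (disj_VW hV hW (hf' t₁ ht h))
      subst h3
      have h4 : n' = n := hn'.unique hn
      subst h4
      obtain ⟨h5, h6, h7⟩ := ih hF' (by linarith)
      exact ⟨by rw [h5], h6, h7⟩

theorem Flow.det (hV : IsOpen V) (hW : W ⊆ frontier V) (h : Flow V W k x v t y w)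
    (h' : Flow V W k' x v t y' w') : k = k' ∧ y = y' ∧ w = w' :=
  det_aux hV hW h h' rfl

private theorem free_shift {x v : E} {r t : ℝ} (hr : 0 < r)
    (hf : ∀ s, 0 < s → s < t → x + s • v ∈ V) :
    ∀ s, 0 < s → s < t - r → (x + r • v) + s • v ∈ V := by
  intro s hs hst
  have h1 : (x + r • v) + s • v = x + (r + s) • v := by module
  rw [h1]
  exact hf _ (by linarith) (by linarith)

theorem Flow.cut (h : Flow V W k x v t y w) (hr : 0 < r) (hrt : r < t) :
    ∃ j y' w', Flow V W j x v r y' w' ∧
      ((y' ∈ V ∧ ∃ j', j + j' = k ∧ Flow V W j' y' w' (t - r) y w) ∨ y' ∈ W) := by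
  induction h generalizing r with
  | @free x v t ht hf =>
    refine ⟨0, x + r • v, v, Flow.free hr fun s hs hsr => hf s hs (by linarith),
      Or.inl ⟨hf r hr hrt, 0, rfl, ?_⟩⟩
    have h1 : x + t • v = (x + r • v) + (t - r) • v := by module
    rw [h1]
    exact Flow.free (by linarith) (free_shift hr hf)
  | @refl k x v t₁ n t₂ y w ht hf hWp hn hv hF ih =>
    rcases lt_trichotomy r t₁ with h | h | h
    · refine ⟨0, x + r • v, v, Flow.free hr fun s hs hsr => hf s hs (by linarith),
        Or.inl ⟨hf r hr h, k + 1, by ring, ?_⟩⟩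
      have h1 : x + t₁ • v = (x + r • v) + (t₁ - r) • v := by module
      have h2 : t₁ + t₂ - r = (t₁ - r) + t₂ := by ring
      rw [h2]
      rw [h1] at hWp hn hF
      exact Flow.refl (by linarith) (free_shift hr hf) hWp hn hv hF
    · subst h
      exact ⟨0, x + r • v, v, Flow.free hr hf, Or.inr hWp⟩
    · obtain ⟨j, y', w', h3, h4⟩ := ih (r := r - t₁) (by linarith) (by linarith)
      refine ⟨j + 1, y', w', ?_, ?_⟩
      · have h5 : r = t₁ + (r - t₁) := by ring
        rw [h5]
        exact Flow.refl ht hf hWp hn hv h3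
      · rcases h4 with ⟨h6, j', h7, h8⟩ | h6
        · refine Or.inl ⟨h6, j', by omega, ?_⟩
          have h9 : t₁ + t₂ - r = t₂ - (r - t₁) := by ring
          rw [h9]
          exact h8
        · exact Or.inr h6

private theorem exit_aux (hV : IsOpen V) (hW : W ⊆ frontier V) (h : Flow V W k x v t y w)
    (h' : Flow V W k' x v t' y' w') (hy : y ∉ V) (hyW : y ∉ W) : ¬ t < t' := by
  intro htt
  obtain ⟨j, y'', w'', h1, h2⟩ := h'.cut h.pos htt
  obtain ⟨-, h3, -⟩ := Flow.det hV hW h h1
  subst h3
  rcases h2 with ⟨h4, -⟩ | h4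
  · exact hy h4
  · exact hyW h4

theorem Flow.exit_unique (hV : IsOpen V) (hW : W ⊆ frontier V) (h : Flow V W k x v t y w)
    (h' : Flow V W k' x v t' y' w') (hy : y ∉ V) (hyW : y ∉ W) (hy' : y' ∉ V) (hyW' : y' ∉ W) :
    t = t' ∧ k = k' ∧ y = y' ∧ w = w' := by
  have h1 := exit_aux hV hW h h' hy hyW
  have h2 := exit_aux hV hW h' h hy' hyW'
  have h3 : t = t' := le_antisymm (not_lt.1 h2) (not_lt.1 h1)
  subst h3
  exact ⟨rfl, Flow.det hV hW h h'⟩

theorem Flow.trans (h : Flow V W k x v r y w) (hy : y ∈ V) (h' : Flow V W k' y w t z u) :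
    Flow V W (k + k') x v (r + t) z u := by
  induction h with
  | @free x v r hr hf =>
    have hglue : ∀ t₁, (∀ s, 0 < s → s < t₁ → (x + r • v) + s • v ∈ V) →
        ∀ s, 0 < s → s < r + t₁ → x + s • v ∈ V := by
      intro t₁ hf' s hs hst
      rcases lt_trichotomy s r with h | h | h
      · exact hf s hs h
      · rw [h]; exact hy
      · have h1 := hf' (s - r) (by linarith) (by linarith)
        have h2 : (x + r • v) + (s - r) • v = x + s • v := by module
        rwa [h2] at h1
    cases h' with
    | free ht hf' =>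
      have h1 : (x + r • u) + t • u = x + (r + t) • u := by module
      rw [h1, Nat.zero_add]
      exact Flow.free (by linarith) (hglue _ hf')
    | @refl k _ _ t₁ n t₂ _ _ ht hf' hWp hn hv hF =>
      have h1 : (x + r • v) + t₁ • v = x + (r + t₁) • v := by module
      rw [h1] at hWp hn hF
      have h2 : r + (t₁ + t₂) = (r + t₁) + t₂ := by ring
      rw [h2, Nat.zero_add]
      exact Flow.refl (by linarith) (hglue _ hf') hWp hn hv hF
  | @refl k x v t₁ n t₂ y w ht hf hWp hn hv hF ih =>
    have h1 := ih hy h'
    have h2 : t₁ + t₂ + t = t₁ + (t₂ + t) := by ring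
    have h3 : k + 1 + k' = (k + k') + 1 := by ring
    rw [h2, h3]
    exact Flow.refl ht hf hWp hn hv h1

theorem Flow.finite_bad (h : Flow V W k x v t y w) :
    ∃ T : Finset ℝ, ∀ r, 0 < r → r < t → r ∉ T → ∃ j y' w', Flow V W j x v r y' w' ∧ y' ∈ V := by
  classical
  induction h with
  | @free x v t ht hf =>
    exact ⟨∅, fun r hr hrt _ => ⟨0, x + r • v, v,
      Flow.free hr fun s hs hsr => hf s hs (by linarith), hf r hr hrt⟩⟩
  | @refl k x v t₁ n t₂ y w ht hf hWp hn hv hF ih =>
    obtain ⟨T, hT⟩ := ih
    refine ⟨insert t₁ (T.image fun s => t₁ + s), fun r hr hrt hrT => ?_⟩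
    rw [Finset.mem_insert, not_or] at hrT
    rcases lt_trichotomy r t₁ with h | h | h
    · exact ⟨0, x + r • v, v, Flow.free hr fun s hs hsr => hf s hs (by linarith), hf r hr h⟩
    · exact absurd h hrT.1
    · obtain ⟨j, y', w', h1, h2⟩ := hT (r - t₁) (by linarith) (by linarith) fun h3 =>
        hrT.2 (Finset.mem_image.2 ⟨r - t₁, h3, by ring⟩)
      refine ⟨j + 1, y', w', ?_, h2⟩
      have h5 : r = t₁ + (r - t₁) := by ring
      rw [h5]
      exact Flow.refl ht hf hWp hn hv h1

end Pool.Agent.Work.MP_d70a14_gt

end
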