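import Pool.Agent.Work.MP_d70a14_gt.A.FlowDet

/-! # Reversal of the rays (M)

* `snoc` (appending one more reflection): induction on the flow.  `free` ending at `p ∈ W`: `Flow.refl` followed by `Flow.free`.
  `refl`: induction hypothesis and `Flow.refl`.
* `rev`: induction on the flow.  `free`: from `y = x + t v` with velocity `-v`: `y + s (-v) = x + (t - s) v ∈ V`, end point
  `x`.  `refl` (first flight `t`, hit `p = x + t v`, normal `n`, rest `Flow k p (mirror n v) t' y w`): the reversed rest is
  `Flow k y (-w) t' p (-mirror n v)`; append with `snoc` the reflection at `p`: `mirror n (-mirror n v) = -v` and the flight back to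
  `x`; the total time is `t' + t`. -/

open MeasureTheory Set Metric Filter Topology
open scoped RealInnerProductSpace ContDiff ENNReal

noncomputable section

namespace Pool.Agent.Work.MP_d70a14_gt

variable {V W : Set E} {k : ℕ} {x v y w p u n : E} {t r : ℝ}

theorem Flow.snoc (h : Flow V W k x v t p u) (hp : p ∈ W) (hn : InnerNormal V p n)
    (hu : ⟪u, n⟫ ≠ 0) (hr : 0 < r) (hfree : ∀ s, 0 < s → s < r → p + s • mirror n u ∈ V) :
    Flow V W (k + 1) x v (t + r) (p + r • mirror n u) (mirror n u) := by
  induction h with
  | free ht hf => exact Flow.refl ht hf hp hn hu (Flow.free hr hfree)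
  | @refl k x v t₁ n' t₂ y w ht hf hWp hn' hv hF ih =>
    have h1 := ih hp hn hu hfree
    rw [add_assoc t₁ t₂ r]
    exact Flow.refl ht hf hWp hn' hv h1

theorem Flow.rev (h : Flow V W k x v t y w) : Flow V W k y (-w) t x (-v) := by
  induction h with
  | @free x v t ht hf =>
    have h1 : x = (x + t • v) + t • (-v) := by module
    have h2 : Flow V W 0 (x + t • v) (-v) t ((x + t • v) + t • (-v)) (-v) := by
      refine Flow.free ht fun s hs hst => ?_
      have h3 : (x + t • v) + s • (-v) = x + (t - s) • v := by module
      rw [h3]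
      exact hf _ (by linarith) (by linarith)
    rwa [← h1] at h2
  | @refl k x v t₁ n' t₂ y w ht hf hWp hn' hv hF ih =>
    have hm : mirror n' (-mirror n' v) = -v := by
      rw [mirror_neg, mirror_mirror hn'.1]
    have hi : ⟪-mirror n' v, n'⟫ ≠ 0 := by
      rw [inner_neg_left, inner_mirror hn'.1, neg_neg]
      exact hv
    have h2 := Flow.snoc ih hWp hn' hi ht (fun s hs hst => by
      rw [hm]
      have h3 : (x + t₁ • v) + s • (-v) = x + (t₁ - s) • v := by module
      rw [h3]
      exact hf _ (by linarith) (by linarith))
    rw [hm] at h2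
    have h4 : (x + t₁ • v) + t₁ • (-v) = x := by module
    rw [h4] at h2
    rw [add_comm t₁ t₂]
    exact h2

end Pool.Agent.Work.MP_d70a14_gt

end
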