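import Pool.Agent.Work.MP_d70a14_gt.A.FlowRev

/-! # Live times and states (S-M)

* `st_eq`: by `Flow.det` the chosen state is the given one.
* `live_spec`: definition of `st` (`dif_pos`, `choose_spec`).
* `live_isOpen`: if `Flow V W k y u t x v` with `x ∈ V`, then a small time interval around `t` is live: the last flight can be
  shortened or prolonged a little: for `r < t` near `t` use `cut` -- simpler: by `Flow.rev` the flow from `(x, -v)`; for `r > t` near `t`:
  `Flow.trans` with `Flow.free` (`x + s v ∈ V` for small `s`); for `r < t`, `t - r` small: show by induction on the flow that there is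
  `ε > 0` such that `Flow V W k y u r (x - (t - r) v) v` for all `r ∈ (t - ε, t)` (and these points are in `V` because `V` is open).
* `exit_live`: if the ray leaves at time `T` at `z ∉ V, z ∉ W`: `Live ⊆ (0, T)`: for `t ≥ T`, `t` live: `t = T` contradicts
  `Flow.det`, and `t > T` contradicts `Flow.cut` (at `T`) and `det`; all other times of `(0, T)` except finitely many are live by
  `Flow.finite_bad`.
* `leaves_live`: if the ray from `(y, u)` leaves through `G` (which is disjoint from `V` and `W`) and `t` is live then the ray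
  from `st t` leaves through `G`: `cut` at `t` (the alternative `∈ W` contradicts `det` as the state is in `V`).
* `back_live`: the reversed ray from `st t` leads back to `(y, -u)`: `Flow.rev`. -/

open MeasureTheory Set Metric Filter Topology
open scoped RealInnerProductSpace ContDiff ENNReal

noncomputable section

namespace Pool.Agent.Work.MP_d70a14_gt

variable {V W : Set E} {k : ℕ} {x v y u z w : E} {t T : ℝ}

theorem st_eq (hV : IsOpen V) (hW : W ⊆ frontier V) (h : Flow V W k y u t x v) (hx : x ∈ V) :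
    t ∈ Live V W y u ∧ st V W y u t = (x, v) := by
  have h1 : ∃ q : E × E, ∃ k, q.1 ∈ V ∧ Flow V W k y u t q.1 q.2 := ⟨(x, v), k, hx, h⟩
  refine ⟨⟨k, x, v, hx, h⟩, ?_⟩
  have h2 : st V W y u t = h1.choose := dif_pos h1
  obtain ⟨k', h3, h4⟩ := h1.choose_spec
  obtain ⟨-, h5, h6⟩ := Flow.det hV hW h4 h
  rw [h2]
  exact Prod.ext h5 h6

theorem live_spec (h : t ∈ Live V W y u) :
    (st V W y u t).1 ∈ V ∧ ∃ k, Flow V W k y u t (st V W y u t).1 (st V W y u t).2 := by
  have h1 : ∃ q : E × E, ∃ k, q.1 ∈ V ∧ Flow V W k y u t q.1 q.2 := by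
    obtain ⟨k, x, v, hx, hF⟩ := h
    exact ⟨(x, v), k, hx, hF⟩
  have h2 : st V W y u t = h1.choose := dif_pos h1
  obtain ⟨k', h3, h4⟩ := h1.choose_spec
  rw [h2]
  exact ⟨h3, k', h4⟩

private theorem shorten (h : Flow V W k y u t x v) :
    ∃ ε > 0, ∀ r, t - ε < r → r < t → Flow V W k y u r (x - (t - r) • v) v := by
  induction h with
  | @free x v t ht hf =>
    refine ⟨t, ht, fun r hr hrt => ?_⟩
    have h1 : (x + t • v) - (t - r) • v = x + r • v := by module
    rw [h1]
    exact Flow.free (by linarith) fun s hs hsr => hf s hs (by linarith)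
  | @refl k x v t₁ n t₂ y w ht hf hWp hn hv hF ih =>
    obtain ⟨ε, hε, h1⟩ := ih
    refine ⟨ε, hε, fun r hr hrt => ?_⟩
    have h2 := h1 (r - t₁) (by linarith) (by linarith)
    have h3 := Flow.refl ht hf hWp hn hv h2
    have h4 : t₁ + (r - t₁) = r := by ring
    have h5 : t₂ - (r - t₁) = t₁ + t₂ - r := by ring
    rw [h4, h5] at h3
    exact h3

theorem live_isOpen (hV : IsOpen V) : IsOpen (Live V W y u) := by
  rw [isOpen_iff_mem_nhds]
  rintro t ⟨k, x, v, hx, hF⟩
  obtain ⟨ε, hε, h1⟩ := shorten hF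
  have hc : Continuous fun s : ℝ => x + s • v := by fun_prop
  have h2 : ∀ᶠ s : ℝ in 𝓝 0, x + s • v ∈ V := by
    apply hc.continuousAt.eventually_mem
    simpa using hV.mem_nhds hx
  obtain ⟨δ, hδ, h3⟩ := Metric.eventually_nhds_iff.1 h2
  have h4 : Ioo (t - min ε δ) (t + δ) ∈ 𝓝 t :=
    Ioo_mem_nhds (by linarith [lt_min hε hδ]) (by linarith)
  filter_upwards [h4] with r hr
  rcases lt_trichotomy r t with h | h | h
  · have h5 := h1 r (by linarith [hr.1, min_le_left ε δ]) h
    have h6 : x - (t - r) • v = x + (r - t) • v := by module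
    refine ⟨k, _, v, ?_, h5⟩
    rw [h6]
    apply h3
    rw [Real.dist_eq, sub_zero, abs_lt]
    constructor <;> linarith [hr.1, hr.2, min_le_right ε δ]
  · subst h
    exact ⟨k, x, v, hx, hF⟩
  · have h5 : Flow V W 0 x v (r - t) (x + (r - t) • v) v := by
      refine Flow.free (by linarith) fun s hs hst => h3 ?_
      rw [Real.dist_eq, sub_zero, abs_lt]
      constructor <;> linarith [hr.2]
    have h6 := Flow.trans hF hx h5
    have h7 : t + (r - t) = r := by ring
    rw [h7] at h6
    refine ⟨_, _, _, ?_, h6⟩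
    apply h3
    rw [Real.dist_eq, sub_zero, abs_lt]
    constructor <;> linarith [hr.2]

theorem exit_live (hV : IsOpen V) (hW : W ⊆ frontier V) (h : Flow V W k y u T z w) (hz : z ∉ V)
    (hz' : z ∉ W) : Live V W y u ⊆ Ioo 0 T ∧ (Ioo 0 T \ Live V W y u).Finite := by
  constructor
  · rintro t ⟨k', x, v, hx, hF⟩
    refine ⟨hF.pos, ?_⟩
    by_contra hcon
    rcases eq_or_lt_of_le (not_lt.1 hcon) with h1 | h1
    · subst h1
      obtain ⟨-, h2, -⟩ := Flow.det hV hW h hF
      exact hz (h2 ▸ hx)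
    · obtain ⟨j, y', w', h2, h3⟩ := Flow.cut hF h.pos h1
      obtain ⟨-, h4, -⟩ := Flow.det hV hW h h2
      rcases h3 with ⟨h3, -⟩ | h3
      · exact hz (h4 ▸ h3)
      · exact hz' (h4 ▸ h3)
  · obtain ⟨S, hS⟩ := Flow.finite_bad h
    refine S.finite_toSet.subset ?_
    rintro r ⟨hr, hr'⟩
    by_contra hcon
    obtain ⟨j, y', w', h1, h2⟩ := hS r hr.1 hr.2 hcon
    exact hr' ⟨j, y', w', h2, h1⟩

theorem leaves_live (hV : IsOpen V) (hW : W ⊆ frontier V) {G : Set E} (hG : Disjoint G V)
    (hG' : Disjoint G W) (h : Leaves V W G y u) (ht : t ∈ Live V W y u) :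
    Leaves V W G (st V W y u t).1 (st V W y u t).2 := by
  obtain ⟨k, T, z, w, n, hF, hz, hn, hwn⟩ := h
  have hzV : z ∉ V := fun h1 => hG.le_bot ⟨hz, h1⟩
  have hzW : z ∉ W := fun h1 => hG'.le_bot ⟨hz, h1⟩
  have h1 := (exit_live hV hW hF hzV hzW).1 ht
  obtain ⟨j, y', w', h2, h3⟩ := Flow.cut hF h1.1 h1.2
  obtain ⟨h4, k', h5⟩ := live_spec ht
  obtain ⟨-, h6, h7⟩ := Flow.det hV hW h5 h2
  rw [h6] at h4
  rcases h3 with ⟨-, j', -, h3⟩ | h3
  · rw [h6, h7]
    exact ⟨j', _, z, w, n, h3, hz, hn, hwn⟩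
  · exfalso
    have h8 := hW h3
    rw [hV.frontier_eq] at h8
    exact h8.2 h4

theorem back_live (h : t ∈ Live V W y u) :
    ∃ k, Flow V W k (st V W y u t).1 (-(st V W y u t).2) t y (-u) := by
  obtain ⟨-, k, h1⟩ := live_spec h
  exact ⟨k, h1.rev⟩

end Pool.Agent.Work.MP_d70a14_gt

end
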