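import Pool.Agent.Work.MP_d70a14_gt.Defs

/-! # Algebra of reflections (S)

`mirror n v = v - 2⟪v,n⟫ n`; direct computations with `inner_sub_left`, `inner_smul_left`,
`real_inner_self_eq_norm_sq` (and `‖n‖ = 1`). -/

open MeasureTheory Set Metric Filter Topology
open scoped RealInnerProductSpace ContDiff ENNReal

noncomputable section

namespace Pool.Agent.Work.MP_d70a14_gt

variable {n v w : E}

theorem inner_mirror (hn : ‖n‖ = 1) : ⟪mirror n v, n⟫ = -⟪v, n⟫ := by
  unfold mirror
  rw [inner_sub_left, real_inner_smul_left, real_inner_self_eq_norm_sq, hn]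
  ring

theorem mirror_mirror (hn : ‖n‖ = 1) : mirror n (mirror n v) = v := by
  have h := inner_mirror (v := v) hn
  unfold mirror at h ⊢
  rw [h]
  module

theorem norm_mirror (hn : ‖n‖ = 1) : ‖mirror n v‖ = ‖v‖ := by
  have h : ‖mirror n v‖ ^ 2 = ‖v‖ ^ 2 := by
    unfold mirror
    rw [norm_sub_sq_real, real_inner_smul_right, norm_smul, hn, Real.norm_eq_abs, mul_one, sq_abs]
    ring
  exact (pow_left_inj₀ (norm_nonneg _) (norm_nonneg _) two_ne_zero).1 h

theorem mirror_neg : mirror n (-v) = -mirror n v := by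
  unfold mirror
  rw [inner_neg_left]
  module

theorem neg_mirror : mirror (-n) v = mirror n v := by
  unfold mirror
  rw [inner_neg_right]
  module

end Pool.Agent.Work.MP_d70a14_gt

end
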