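import Pool.Agent.Work.MP_d70a14_gt.A.Mirror

/-! # Inner normals (M)

Let `ρ` be as in the definition.  For `v` with `⟪v, n⟫ ≠ 0` the function `s ↦ ρ (p + s v)` has at `0` the value `0` and the
derivative `⟪∇ρ p, v⟫ = c ⟪n, v⟫` (`HasGradientAt`, from `ContDiffAt.differentiableAt`), so for small `s > 0` its sign is
that of `⟪v, n⟫` (`HasDerivAt` at `0`, `eventually` of the sign of the slope); this gives `inward` and `outward`.
`notMem`: at `x = p` the equivalence gives `p ∈ V ↔ 0 < 0` (`Eventually.self_of_nhds`).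
`mem_frontier`: `p` is a limit of the points `p + s n ∈ V`, and `p ∉ V` so `p ∉ interior V`.
`unique`: if `n ≠ n'` put `v = n - n'`: `⟪v, n⟫ = 1 - ⟪n', n⟫ > 0` and `⟪v, n'⟫ < 0` (`inner_lt_one_iff_real_of_norm_one`), so
`inward` for `n` and `outward` for `n'` contradict each other.
`neg_of_free`: if `⟪v, n⟫ > 0` then `outward` for `-v` at `p = x + t v` says `x + (t - s) v ∉ V` for small `s > 0`.
`pos_of_free`: if `⟪v, n⟫ < 0` use `outward`.
`Body.end_normal`: take `n, r` from `one_side` and `ρ x = ⟪x - ι i y, n⟫`, its gradient is `n`.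
`planeNormal`: the range of the linear part of `a` has dimension 2, so its orthogonal complement contains a unit vector.
`planeNormal_unique`: the orthogonal complement has dimension 1.  (`m, n` are in it.)
`Body.closed_ends`: finite union of images of compact sets.  `Body.ends_frontier`: for `y` in the interior by `end_normal` and
`mem_frontier`; the frontier is closed and `K i = closure (interior (K i))`. -/

open MeasureTheory Set Metric Filter Topology
open scoped RealInnerProductSpace ContDiff ENNReal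

noncomputable section

namespace Pool.Agent.Work.MP_d70a14_gt

variable {V : Set E} {p n n' v x : E} {t : ℝ}

theorem InnerNormal.notMem (h : InnerNormal V p n) : p ∉ V := by
  obtain ⟨-, ρ, -, h0, -, h1⟩ := h
  have h2 := h1.self_of_nhds
  rw [h2, h0]
  exact lt_irrefl 0

private theorem line_deriv {ρ : E → ℝ} {c : ℝ} (hρ : ContDiffAt ℝ 2 ρ p)
    (hg : gradient ρ p = c • n) (v : E) :
    HasDerivAt (fun s : ℝ => ρ (p + s • v)) (c * ⟪v, n⟫) 0 := by
  have h1 : HasGradientAt ρ (c • n) p := by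
    rw [← hg]
    exact (hρ.differentiableAt (by norm_num)).hasGradientAt
  have h2 : HasDerivAt (fun s : ℝ => p + s • v) v 0 := by
    simpa using ((hasDerivAt_id (0 : ℝ)).smul_const v).const_add p
  have h3 : HasFDerivAt ρ ((InnerProductSpace.toDual ℝ E) (c • n)) (p + (0 : ℝ) • v) := by
    simpa using h1.hasFDerivAt
  have h4 := h3.comp_hasDerivAt (0 : ℝ) h2
  have h5 : (InnerProductSpace.toDual ℝ E) (c • n) v = c * ⟪v, n⟫ := by
    rw [InnerProductSpace.toDual_apply_apply, real_inner_smul_left, real_inner_comm]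
  rw [h5] at h4
  exact h4

private theorem line_sign {ρ : E → ℝ} (h0 : ρ p = 0) {d : ℝ}
    (hd : HasDerivAt (fun s : ℝ => ρ (p + s • v)) d 0) (hd0 : 0 < d) :
    ∀ᶠ s : ℝ in 𝓝[>] 0, 0 < ρ (p + s • v) := by
  have h1 := hd.tendsto_slope_zero_right
  have h2 : ∀ᶠ s : ℝ in 𝓝[>] 0, 0 < s⁻¹ • (ρ (p + (0 + s) • v) - ρ (p + (0 : ℝ) • v)) :=
    h1.eventually (lt_mem_nhds hd0)
  filter_upwards [h2, self_mem_nhdsWithin] with s hs hs0
  have hs1 : (0 : ℝ) < s := hs0
  rw [zero_add, zero_smul, add_zero, h0, sub_zero, smul_eq_mul] at hs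
  exact (pos_iff_pos_of_mul_pos hs).1 (inv_pos.2 hs1)

private theorem line_tendsto (v : E) : Tendsto (fun s : ℝ => p + s • v) (𝓝[>] 0) (𝓝 p) := by
  have hc : Continuous fun s : ℝ => p + s • v := by fun_prop
  have h := (hc.tendsto 0).mono_left (nhdsWithin_le_nhds (s := Ioi (0 : ℝ)))
  simpa using h

theorem InnerNormal.inward (h : InnerNormal V p n) (hv : 0 < ⟪v, n⟫) :
    ∀ᶠ s : ℝ in 𝓝[>] 0, p + s • v ∈ V := by
  obtain ⟨-, ρ, hρ, h0, ⟨c, hc, hg⟩, h1⟩ := h
  filter_upwards [line_sign h0 (line_deriv hρ hg v) (mul_pos hc hv),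
    (line_tendsto v).eventually h1] with s hs1 hs2
  exact hs2.2 hs1

theorem InnerNormal.outward (h : InnerNormal V p n) (hv : ⟪v, n⟫ < 0) :
    ∀ᶠ s : ℝ in 𝓝[>] 0, p + s • v ∉ V := by
  obtain ⟨-, ρ, hρ, h0, ⟨c, hc, hg⟩, h1⟩ := h
  have h2 : HasDerivAt (fun s : ℝ => (fun x => -ρ x) (p + s • v)) (-(c * ⟪v, n⟫)) 0 :=
    (line_deriv hρ hg v).neg
  have h3 := line_sign (ρ := fun x => -ρ x) (by simp [h0]) h2 (by nlinarith)
  filter_upwards [h3, (line_tendsto v).eventually h1] with s hs1 hs2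
  intro hs3
  have := hs2.1 hs3
  linarith

theorem InnerNormal.mem_frontier (h : InnerNormal V p n) : p ∈ frontier V := by
  refine ⟨?_, fun h1 => h.notMem (interior_subset h1)⟩
  have hv : 0 < ⟪n, n⟫ := by
    rw [real_inner_self_eq_norm_sq, h.1]
    norm_num
  exact mem_closure_of_tendsto (line_tendsto n) (h.inward hv)

theorem InnerNormal.unique (h : InnerNormal V p n) (h' : InnerNormal V p n') : n = n' := by
  by_contra hne
  have h1 : ⟪n, n'⟫ < 1 := (inner_lt_one_iff_real_of_norm_eq_one h.1 h'.1).2 hne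
  have h2 : 0 < ⟪n - n', n⟫ := by
    rw [inner_sub_left, real_inner_self_eq_norm_sq, h.1, real_inner_comm]
    linarith
  have h3 : ⟪n - n', n'⟫ < 0 := by
    rw [inner_sub_left, real_inner_self_eq_norm_sq, h'.1]
    linarith
  obtain ⟨s, hs1, hs2⟩ := ((h.inward h2).and (h'.outward h3)).exists
  exact hs2 hs1

theorem InnerNormal.neg_of_free (h : InnerNormal V (x + t • v) n) (ht : 0 < t)
    (hf : ∀ s, 0 < s → s < t → x + s • v ∈ V) (hv : ⟪v, n⟫ ≠ 0) : ⟪v, n⟫ < 0 := by
  by_contra hcon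
  have h1 : 0 < ⟪v, n⟫ := lt_of_le_of_ne (not_lt.1 hcon) (Ne.symm hv)
  have h2 : ⟪-v, n⟫ < 0 := by
    rw [inner_neg_left]
    linarith
  have h3 : ∀ᶠ s : ℝ in 𝓝[>] 0, s ∈ Ioo 0 t := Ioo_mem_nhdsGT ht
  obtain ⟨s, hs1, hs2⟩ := ((h.outward h2).and h3).exists
  apply hs1
  have h4 : x + t • v + s • (-v) = x + (t - s) • v := by module
  rw [h4]
  exact hf _ (by linarith [hs2.2]) (by linarith [hs2.1])

theorem InnerNormal.pos_of_free (h : InnerNormal V x n) (ht : 0 < t)
    (hf : ∀ s, 0 < s → s < t → x + s • v ∈ V) (hv : ⟪v, n⟫ ≠ 0) : 0 < ⟪v, n⟫ := by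
  by_contra hcon
  have h1 : ⟪v, n⟫ < 0 := lt_of_le_of_ne (not_lt.1 hcon) hv
  have h3 : ∀ᶠ s : ℝ in 𝓝[>] 0, s ∈ Ioo 0 t := Ioo_mem_nhdsGT ht
  obtain ⟨s, hs1, hs2⟩ := ((h.outward h1).and h3).exists
  exact hs1 (hf s hs2.1 hs2.2)

private theorem dir_eq (a : P2 →ᵃⁱ[ℝ] E) (y z : P2) : a y - a z = a.linearIsometry (y - z) := by
  have := a.map_vadd z (y - z)
  rw [vadd_eq_add, sub_add_cancel, vadd_eq_add] at this
  rw [this]
  abel

private theorem range_finrank (a : P2 →ᵃⁱ[ℝ] E) :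
    Module.finrank ℝ (LinearMap.range a.linearIsometry.toLinearMap) = 2 := by
  rw [LinearMap.finrank_range_of_inj a.linearIsometry.injective]
  simp

private theorem orth_finrank (a : P2 →ᵃⁱ[ℝ] E) :
    Module.finrank ℝ (LinearMap.range a.linearIsometry.toLinearMap)ᗮ = 1 := by
  have h := Submodule.finrank_add_finrank_orthogonal (LinearMap.range a.linearIsometry.toLinearMap)
  rw [range_finrank a] at h
  have h3 : Module.finrank ℝ E = 3 := by simp
  omega

theorem planeNormal (a : P2 →ᵃⁱ[ℝ] E) : ∃ m : E, ‖m‖ = 1 ∧ ∀ y z, ⟪a y - a z, m⟫ = 0 := by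
  have h1 := orth_finrank a
  have h2 : Nontrivial (LinearMap.range a.linearIsometry.toLinearMap)ᗮ := by
    apply Module.nontrivial_of_finrank_pos (R := ℝ)
    omega
  obtain ⟨⟨m, hm⟩, hm0⟩ := exists_norm_eq (LinearMap.range a.linearIsometry.toLinearMap)ᗮ
    (zero_le_one (α := ℝ))
  refine ⟨m, hm0, fun y z => ?_⟩
  rw [dir_eq]
  exact (Submodule.mem_orthogonal _ _).1 hm _ (LinearMap.mem_range_self _ _)

theorem planeNormal_unique (a : P2 →ᵃⁱ[ℝ] E) {m : E} (hm : ‖m‖ = 1)
    (h : ∀ y z, ⟪a y - a z, m⟫ = 0) {y : P2} (hn : ‖n‖ = 1) (h' : ∀ z, ⟪a z - a y, n⟫ = 0) :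
    n = m ∨ n = -m := by
  have hmem : ∀ q : E, (∀ z, ⟪a z - a y, q⟫ = 0) →
      q ∈ (LinearMap.range a.linearIsometry.toLinearMap)ᗮ := by
    intro q hq
    rw [Submodule.mem_orthogonal]
    rintro _ ⟨z, rfl⟩
    have h1 := hq (z + y)
    rw [dir_eq, add_sub_cancel_right] at h1
    exact h1
  have hm1 := hmem m fun z => h z y
  have hn1 := hmem n h'
  obtain ⟨c, hc⟩ := exists_smul_eq_of_finrank_eq_one (orth_finrank a)
    (x := (⟨m, hm1⟩ : (LinearMap.range a.linearIsometry.toLinearMap)ᗮ))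
    (by
      intro h0
      have := congrArg Subtype.val h0
      simp only [ZeroMemClass.coe_zero] at this
      rw [this, norm_zero] at hm
      exact zero_ne_one hm) ⟨n, hn1⟩
  have hc1 : c • m = n := congrArg Subtype.val hc
  have hc2 : |c| = 1 := by
    have := congrArg norm hc1
    rw [norm_smul, hm, hn, mul_one, Real.norm_eq_abs] at this
    exact this
  rcases eq_or_eq_neg_of_abs_eq hc2 with h1 | h1
  · left; rw [← hc1, h1, one_smul]
  · right; rw [← hc1, h1]; simp

section body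

variable {K : Bool → Set P2} {ι : Bool → P2 →ᵃⁱ[ℝ] E}

theorem Body.end_normal (hb : Body V K ι) (i : Bool) {y : P2} (hy : y ∈ interior (K i)) :
    ∃ n : E, InnerNormal V (ι i y) n ∧ (∀ z, ⟪ι i z - ι i y, n⟫ = 0) ∧
      ∃ r > 0, ∀ x ∈ ball (ι i y) r, (x ∈ V ↔ 0 < ⟪x - ι i y, n⟫) := by
  obtain ⟨n, hn, h1, r, hr, h2⟩ := hb.one_side i y hy
  refine ⟨n, ⟨hn, fun x => ⟪x - ι i y, n⟫, ?_, ?_, ⟨1, one_pos, ?_⟩, ?_⟩, h1, r, hr, h2⟩
  · exact ((contDiff_id.sub contDiff_const).inner ℝ contDiff_const).contDiffAt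
  · simp
  · rw [one_smul]
    apply HasGradientAt.gradient
    rw [hasGradientAt_iff_hasFDerivAt]
    have h3 : HasFDerivAt (fun x : E => ⟪n, x - ι i y⟫)
        ((InnerProductSpace.toDual ℝ E) n) (ι i y) := by
      have h4 := ((InnerProductSpace.toDual ℝ E) n).hasFDerivAt (x := ι i y)
      have h5 : (fun x : E => ⟪n, x - ι i y⟫) =
          fun x => (InnerProductSpace.toDual ℝ E) n x - ⟪n, ι i y⟫ := by
        ext x
        rw [InnerProductSpace.toDual_apply_apply, inner_sub_right]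
      rw [h5]
      exact h4.sub_const _
    have h6 : (fun x : E => ⟪x - ι i y, n⟫) = fun x : E => ⟪n, x - ι i y⟫ := by
      ext x
      exact real_inner_comm _ _
    rw [h6]
    exact h3
  · filter_upwards [ball_mem_nhds _ hr] with x hx
    exact h2 x hx

theorem Body.closed_ends (hb : Body V K ι) : IsClosed (⋃ i, ι i '' K i) :=
  isClosed_iUnion_of_finite fun i => ((hb.compact i).image (ι i).continuous).isClosed

theorem Body.ends_frontier (hb : Body V K ι) (i : Bool) {y : P2} (hy : y ∈ K i) :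
    ι i y ∈ frontier V := by
  rw [← hb.regular i] at hy
  have h1 : MapsTo (ι i) (interior (K i)) (frontier V) := fun z hz => by
    obtain ⟨n, hn, -⟩ := hb.end_normal i hz
    exact hn.mem_frontier
  have h2 := h1.closure (ι i).continuous
  rw [isClosed_frontier.closure_eq] at h2
  exact h2 hy

theorem Body.wall_normal (hb : Body V K ι) (hp : p ∈ Wall V K ι) : ∃ n, InnerNormal V p n :=
  hb.wall p hp.1 fun i h => hp.2 (mem_iUnion.2 ⟨i, h⟩)

theorem Body.wall_sub : Wall V K ι ⊆ frontier V := sdiff_subset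

end body

end Pool.Agent.Work.MP_d70a14_gt

end
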